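import Pool.Agent.Work.MP_7d0410_cr.Final

/-!
# Sums of consecutive elements of Cramér's random set
-/

set_option autoImplicit false

namespace Pool.Agent.Results.MP_7d0410_nt.CramerModel

open MeasureTheory ProbabilityTheory Filter Pool.Agent.Work.MP_7d0410_cr
open scoped Topology

/-- Let `P` be Cramér's random set: `2` is an element of `P`, and for `m ≥ 3` the events `m ∈ P`
are independent and have the probability `1 / log m`. Then almost surely, for every `k`, the set of
the positive integers `n` which are sums of consecutive elements of `P` in exactly `k` ways has the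
natural density `(log 2) ^ k / (2 * k!)`. -/
theorem result.{u} {Ω : Type u} [MeasurableSpace Ω] (μ : Measure Ω) [IsProbabilityMeasure μ]
    (E : ℕ → Set Ω) (hmeas : ∀ m, MeasurableSet (E m)) (hind : iIndepSet E μ)
    (hprob : ∀ m : ℕ, 3 ≤ m → μ (E m) = ENNReal.ofReal (1 / Real.log m)) :
    ∀ᵐ ω ∂μ, ∀ k : ℕ, Tendsto (fun x : ℕ =>
      (((Finset.Icc 1 x).filter (fun n => repCount (cramer E ω) n = k)).card : ℝ) / x)
      atTop (𝓝 (Real.log 2 ^ k / (2 * (k.factorial : ℝ)))) :=
  final μ E ⟨hmeas, hind, hprob⟩

end Pool.Agent.Results.MP_7d0410_nt.CramerModel
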