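import Pool.Agent.Work.MP_7d0410_sp.Final

/-!
# Sums of consecutive elements of the primes together with a sparse random set
-/

set_option autoImplicit false

namespace Pool.Agent.Results.MP_7d0410_nt.PrimesPlusRandom

open MeasureTheory ProbabilityTheory Filter Pool.Agent.Work.MP_7d0410_cr
open Pool.Agent.Work.MP_7d0410_sp
open scoped Topology

/-- Let `0 < c < 1/2`, and let `P'` consist of all primes and of a random set: the `m ≥ 2` are in
the random set with probability `m ^ (-c)`, independently. Then almost surely, for every `k`, the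
set of the positive integers `n` which are sums of consecutive elements of `P'` in exactly `k` ways
has positive lower density. -/
theorem result.{u} {Ω : Type u} [MeasurableSpace Ω] (μ : Measure Ω) [IsProbabilityMeasure μ]
    (E : ℕ → Set Ω) (c : ℝ) (hc0 : 0 < c) (hc1 : c < 1 / 2) (hmeas : ∀ m, MeasurableSet (E m))
    (hind : iIndepSet E μ)
    (hprob : ∀ m : ℕ, 2 ≤ m → μ (E m) = ENNReal.ofReal ((m : ℝ) ^ (-c))) :
    ∀ᵐ ω ∂μ, ∀ k : ℕ, ∃ δ : ℝ, 0 < δ ∧ ∀ᶠ x : ℕ in atTop,
      δ * x ≤ (((Finset.Icc 1 x).filter (fun n => repCount (primesPlus E ω) n = k)).card : ℝ) :=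
  final μ E c hc0 hc1 ⟨hmeas, hind, hprob⟩

end Pool.Agent.Results.MP_7d0410_nt.PrimesPlusRandom
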