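import Pool.Agent.Work.MP_7d0410_sv.Final

/-!
# Sums of consecutive elements of the primes together with a random set of relative density zero
-/

set_option autoImplicit false

namespace Pool.Agent.Results.MP_7d0410_nt.PrimesPlusSlowlyVarying

open MeasureTheory ProbabilityTheory Filter Pool.Agent.Work.MP_7d0410_cr
open Pool.Agent.Work.MP_7d0410_sp
open scoped Topology

/-- Let `w m`, strictly between `0` and `1`, be decreasing and slowly varying (`w (2m) / w m → 1`),
with `w m * log m → 0`, and let `P'` consist of all primes and of a random set: the `m ≥ 2` are in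
the random set with probability `w m`, independently. Then almost surely, for every `k`, the set of
the positive integers `n` which are sums of consecutive elements of `P'` in exactly `k` ways has the
natural density `(log 2) ^ k / (2 * k!)`. -/
theorem result.{u} {Ω : Type u} [MeasurableSpace Ω] (μ : Measure Ω) [IsProbabilityMeasure μ]
    (E : ℕ → Set Ω) (w : ℕ → ℝ) (hpos : ∀ m, 0 < w m) (hlt : ∀ m, w m < 1) (hanti : Antitone w)
    (hsv : Tendsto (fun m : ℕ => w (2 * m) / w m) atTop (𝓝 1))
    (hsmall : Tendsto (fun m : ℕ => w m * Real.log m) atTop (𝓝 0))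
    (hmeas : ∀ m, MeasurableSet (E m)) (hind : iIndepSet E μ)
    (hprob : ∀ m : ℕ, 2 ≤ m → μ (E m) = ENNReal.ofReal (w m)) :
    ∀ᵐ ω ∂μ, ∀ k : ℕ, Tendsto (fun x : ℕ =>
      (((Finset.Icc 1 x).filter (fun n => repCount (primesPlus E ω) n = k)).card : ℝ) / x)
      atTop (𝓝 (Real.log 2 ^ k / (2 * (k.factorial : ℝ)))) :=
  v_final μ E w ⟨hpos, hlt, hanti, hsv, hsmall⟩ ⟨hmeas, hind, hprob⟩

end Pool.Agent.Results.MP_7d0410_nt.PrimesPlusSlowlyVarying
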