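import Pool.Agent.Work.MP_7d0410_dl.Final

/-!
# Sums of consecutive elements of random subsets of the primes
-/

set_option autoImplicit false

namespace Pool.Agent.Results.MP_7d0410_nt.RandomSubsets

open MeasureTheory ProbabilityTheory Filter Pool.Agent.Work.MP_7d0410_cr
open scoped Topology

/-- Every prime `p` is deleted with probability `w p`, independently, where `0 < w p ≤ κ < 1` and
`w p = p ^ (-c + o(1))` for some `0 ≤ c < 1/2`. Almost surely the number of the deleted primes up to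
`x` is at most `x ^ (1 - c + o(1))`, and, for every `k`, the set of the positive integers `n` which
are in exactly `k` ways sums of consecutive primes that have not been deleted has positive lower
density. -/
theorem result.{u} {Ω : Type u} [MeasurableSpace Ω] (μ : Measure Ω) [IsProbabilityMeasure μ]
    (E : ℕ → Set Ω) (w : ℕ → ℝ) (c κ : ℝ) (hc0 : 0 ≤ c) (hc1 : c < 1 / 2) (hκ : κ < 1)
    (hw : ∀ p : ℕ, p.Prime → 0 < w p ∧ w p ≤ κ)
    (he : ∀ e : ℝ, 0 < e → ∀ᶠ p : ℕ in atTop, p.Prime →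
      (p : ℝ) ^ (-(c + e)) ≤ w p ∧ w p ≤ (p : ℝ) ^ (-(c - e)))
    (hmeas : ∀ m, MeasurableSet (E m)) (hind : iIndepSet E μ)
    (hprob : ∀ p : ℕ, p.Prime → μ (E p) = ENNReal.ofReal (w p)) :
    ∀ᵐ ω ∂μ, (∀ e : ℝ, 0 < e → ∀ᶠ x : ℕ in atTop,
      ({p | p.Prime ∧ p ≤ x ∧ ω ∈ E p}.ncard : ℝ) ≤ (x : ℝ) ^ (1 - c + e)) ∧
      ∀ k : ℕ, ∃ δ : ℝ, 0 < δ ∧ ∀ᶠ x : ℕ in atTop,
        δ * x ≤ (((Finset.Icc 1 x).filter
          (fun n => repCount {p | p.Prime ∧ ω ∉ E p} n = k)).card : ℝ) := by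
  filter_upwards [Pool.Agent.Work.MP_7d0410_dl.final μ E w c κ hc0 hc1 hκ hw he hmeas hind hprob]
    with ω h
  refine ⟨fun e h0 => ?_, h.2⟩
  filter_upwards [h.1 e h0] with x hx
  refine le_trans (le_of_eq ?_) hx
  classical
  rw [← Set.ncard_coe_finset]
  congr 2
  ext p
  simp only [Finset.coe_filter, Finset.mem_Icc, Set.mem_setOf_eq]
  constructor
  · rintro ⟨h1, h2, h3⟩
    exact ⟨⟨h1.one_lt.le, h2⟩, h1, h3⟩
  · rintro ⟨⟨_, h2⟩, h1, h3⟩
    exact ⟨h1, h2, h3⟩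

end Pool.Agent.Results.MP_7d0410_nt.RandomSubsets
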